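import Mathlib

/-!
# Lattice points in simplices; a separation lemma
-/

set_option autoImplicit false

namespace Pool.Agent.H954Z.FT

open Finset Filter Topology

/-- lattice points of the simplex -/
def simp (d : ℕ) (u : Fin d → ℝ) (y : ℝ) : Set (Fin d → ℕ) := {α | ∑ i, u i * α i < y}

lemma simp_finite (d : ℕ) (u : Fin d → ℝ) (hu : ∀ i, 0 < u i) (y : ℝ) : (simp d u y).Finite := by
  refine (Set.Finite.pi' (fun i => Set.finite_le_nat ⌈y / u i⌉₊)).subset fun α hα i => ?_
  have h1 : u i * α i ≤ ∑ i, u i * α i :=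
    single_le_sum (f := fun i => u i * (α i : ℝ)) (fun j _ => mul_nonneg (hu j).le (Nat.cast_nonneg _))
      (mem_univ i)
  have h2 : (α i : ℝ) ≤ y / u i := by
    rw [le_div_iff₀ (hu i)]
    have : ∑ i, u i * α i < y := hα
    linarith
  exact_mod_cast h2.trans (Nat.le_ceil _)

lemma simp_succ (d : ℕ) (u : Fin (d + 1) → ℝ) (hu : ∀ i, 0 < u i) (y : ℝ) :
    (simp (d + 1) u y).ncard =
      ∑ a ∈ range ⌈y / u 0⌉₊, (simp d (fun i => u i.succ) (y - u 0 * a)).ncard := by
  classical
  have hu' : ∀ i : Fin d, 0 < u i.succ := fun i => hu _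
  rw [Set.ncard_eq_toFinset_card _ (simp_finite _ u hu y)]
  simp_rw [fun a : ℕ => Set.ncard_eq_toFinset_card _ (simp_finite d _ hu' (y - u 0 * a))]
  rw [← card_sigma]
  refine card_bij (fun α _ => ⟨α 0, fun i => α i.succ⟩) ?_ ?_ ?_
  · intro α hα
    rw [Set.Finite.mem_toFinset] at hα
    have h : ∑ i, u i * α i < y := hα
    rw [Fin.sum_univ_succ] at h
    have h0 : 0 ≤ ∑ i : Fin d, u i.succ * α i.succ :=
      sum_nonneg fun i _ => mul_nonneg (hu _).le (Nat.cast_nonneg _)
    rw [mem_sigma, mem_range, Set.Finite.mem_toFinset, Nat.lt_ceil, lt_div_iff₀ (hu 0)]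
    constructor
    · linarith
    · show ∑ i : Fin d, u i.succ * α i.succ < y - u 0 * α 0
      linarith
  · intro α _ β _ h
    simp only [Sigma.mk.injEq, heq_eq_eq] at h
    funext i
    refine Fin.cases h.1 (fun j => congrFun h.2 j) i
  · rintro ⟨a, β⟩ h
    rw [mem_sigma, Set.Finite.mem_toFinset] at h
    refine ⟨Fin.cons a β, ?_, by simp⟩
    rw [Set.Finite.mem_toFinset]
    show ∑ i, u i * ((Fin.cons a β : Fin (d + 1) → ℕ) i : ℝ) < y
    rw [Fin.sum_univ_succ]
    have h2 : ∑ i : Fin d, u i.succ * β i < y - u 0 * a := h.2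
    simp only [Fin.cons_zero, Fin.cons_succ]
    linarith

lemma pow_succ_sub_le (d : ℕ) (x y : ℝ) (hx : 0 ≤ x) (hxy : x ≤ y) :
    y ^ (d + 1) - x ^ (d + 1) ≤ (d + 1) * (y - x) * y ^ d ∧
      (d + 1) * (y - x) * x ^ d ≤ y ^ (d + 1) - x ^ (d + 1) := by
  induction d with
  | zero => simp
  | succ d ih =>
    obtain ⟨h1, h2⟩ := ih
    have hy : 0 ≤ y := hx.trans hxy
    have h3 : x ^ (d + 1) ≤ y ^ (d + 1) := pow_le_pow_left₀ hx hxy _
    have h4 : 0 ≤ y - x := by linarith
    have e : y ^ (d + 1 + 1) - x ^ (d + 1 + 1) =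
      y * (y ^ (d + 1) - x ^ (d + 1)) + (y - x) * x ^ (d + 1) := by ring
    have e' : y ^ (d + 1 + 1) - x ^ (d + 1 + 1) =
      x * (y ^ (d + 1) - x ^ (d + 1)) + (y - x) * y ^ (d + 1) := by ring
    push_cast
    constructor
    · rw [e]
      have a1 := mul_le_mul_of_nonneg_left h1 hy
      have a2 := mul_le_mul_of_nonneg_left h3 h4
      have : y * ((d + 1) * (y - x) * y ^ d) = (d + 1) * (y - x) * y ^ (d + 1) := by ring
      nlinarith
    · rw [e']
      have a1 := mul_le_mul_of_nonneg_left h2 hx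
      have a2 := mul_le_mul_of_nonneg_left h3 h4
      have : x * ((d + 1) * (y - x) * x ^ d) = (d + 1) * (y - x) * x ^ (d + 1) := by ring
      nlinarith

lemma simp_lower (d : ℕ) : ∀ (u : Fin d → ℝ), (∀ i, 0 < u i) → ∀ y : ℝ, 0 < y →
    y ^ d ≤ (d.factorial * ∏ i, u i) * (simp d u y).ncard := by
  induction d with
  | zero =>
    intro u _ y hy
    have : simp 0 u y = Set.univ := by
      ext α; simp [simp, hy]
    simp [this]
  | succ d ih =>
    intro u hu y hy
    rw [simp_succ d u hu, Fin.prod_univ_succ, Nat.factorial_succ]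
    push_cast
    rw [mul_sum]
    have h0 := hu 0
    have key : ∀ n : ℕ, n ≤ ⌈y / u 0⌉₊ → y ^ (d + 1) - (max (y - u 0 * n) 0) ^ (d + 1) ≤
        ∑ a ∈ range n, ((d + 1) * d.factorial * (u 0 * ∏ i : Fin d, u i.succ)) *
          ((simp d (fun i => u i.succ) (y - u 0 * a)).ncard : ℝ) := by
      intro n
      induction n with
      | zero => intro _; simp [max_eq_left hy.le]
      | succ n ihn =>
        intro hn
        have h1 := ihn (by omega)
        have hpos : 0 < y - u 0 * n := by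
          have : (n : ℝ) < y / u 0 := Nat.lt_ceil.mp (by omega)
          rw [lt_div_iff₀ h0] at this
          linarith
        rw [sum_range_succ, max_eq_left hpos.le] at *
        have h2 := ih (fun i => u i.succ) (fun i => hu _) _ hpos
        have h3 := (pow_succ_sub_le d (max (y - u 0 * (n + 1 : ℕ)) 0) (y - u 0 * n)
          (le_max_right _ _) (max_le (by push_cast; nlinarith) hpos.le)).1
        have h4 : y - u 0 * n - max (y - u 0 * (n + 1 : ℕ)) 0 ≤ u 0 := by
          have := le_max_left (y - u 0 * (n + 1 : ℕ)) 0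
          push_cast at this ⊢
          linarith
        have h5 : ((d : ℝ) + 1) * (y - u 0 * n - max (y - u 0 * (n + 1 : ℕ)) 0) * (y - u 0 * n) ^ d ≤
            (d + 1) * u 0 * ((d.factorial * ∏ i : Fin d, u i.succ) *
              (simp d (fun i => u i.succ) (y - u 0 * n)).ncard) := by
          refine mul_le_mul (mul_le_mul_of_nonneg_left h4 (by positivity)) h2 (by positivity)
            (by positivity)
        nlinarith
    have h6 := key _ le_rfl
    have h7 : y - u 0 * (⌈y / u 0⌉₊ : ℕ) ≤ 0 := by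
      have := Nat.le_ceil (y / u 0)
      rw [div_le_iff₀ h0] at this
      linarith
    rw [max_eq_right h7, zero_pow (by omega), sub_zero] at h6
    exact h6

lemma simp_upper (d : ℕ) : ∀ (u : Fin d → ℝ), (∀ i, 0 < u i) → ∀ y : ℝ, 0 ≤ y →
    (d.factorial * ∏ i, u i) * (simp d u y).ncard ≤ (y + ∑ i, u i) ^ d := by
  induction d with
  | zero =>
    intro u _ y hy
    have : (simp 0 u y).ncard ≤ 1 := by
      rw [Set.ncard_le_one]; intro a _ b _; exact Subsingleton.elim _ _
    simpa using this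
  | succ d ih =>
    intro u hu y hy
    rw [simp_succ d u hu, Fin.prod_univ_succ, Nat.factorial_succ, Fin.sum_univ_succ]
    push_cast
    rw [mul_sum]
    have h0 := hu 0
    set U := ∑ i : Fin d, u i.succ with hU
    have hU0 : 0 ≤ U := sum_nonneg fun i _ => (hu _).le
    have key : ∀ n : ℕ, n ≤ ⌈y / u 0⌉₊ →
        ∑ a ∈ range n, ((d + 1) * d.factorial * (u 0 * ∏ i : Fin d, u i.succ)) *
          ((simp d (fun i => u i.succ) (y - u 0 * a)).ncard : ℝ) ≤
        (y + (u 0 + U)) ^ (d + 1) - (y - u 0 * n + (u 0 + U)) ^ (d + 1) := by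
      intro n
      induction n with
      | zero => intro _; simp
      | succ n ihn =>
        intro hn
        have h1 := ihn (by omega)
        have hpos : 0 < y - u 0 * n := by
          have : (n : ℝ) < y / u 0 := Nat.lt_ceil.mp (by omega)
          rw [lt_div_iff₀ h0] at this
          linarith
        rw [sum_range_succ]
        have h2 := ih (fun i => u i.succ) (fun i => hu _) _ hpos.le
        have h3 := (pow_succ_sub_le d (y - u 0 * n + U) (y - u 0 * n + (u 0 + U))
          (by linarith) (by linarith)).2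
        have e1 : y - u 0 * ((n + 1 : ℕ) : ℝ) + (u 0 + U) = y - u 0 * n + U := by push_cast; ring
        have e2 : y - u 0 * n + (u 0 + U) - (y - u 0 * n + U) = u 0 := by ring
        rw [e1]
        rw [e2] at h3
        have h5 := mul_le_mul_of_nonneg_left h2 (show 0 ≤ ((d : ℝ) + 1) * u 0 by positivity)
        nlinarith
    have h6 := key _ le_rfl
    have h7 : 0 ≤ y - u 0 * (⌈y / u 0⌉₊ : ℕ) + (u 0 + U) := by
      have := Nat.ceil_lt_add_one (show 0 ≤ y / u 0 by positivity)
      have h8 : u 0 * (⌈y / u 0⌉₊ : ℕ) ≤ u 0 * (y / u 0 + 1) := by gcongr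
      have e : u 0 * (y / u 0 + 1) = y + u 0 := by field_simp
      linarith
    have := pow_nonneg h7 (d + 1)
    linarith

/-- A graded semigroup that avoids a box lies in a half-space. -/
lemma exists_halfspace (d : ℕ) (hd : 0 < d) (D : ℕ → Set (Fin d → ℝ)) (θ : ℝ)
    (hadd : ∀ n m γ δ, 0 < n → 0 < m → γ ∈ D n → δ ∈ D m → γ + δ ∈ D (n + m))
    (hbox : ∀ n γ, 0 < n → γ ∈ D n → ∃ i, n * θ ≤ γ i) :
    ∃ u : Fin d → ℝ, (∀ i, 0 ≤ u i) ∧ ∑ i, u i = 1 ∧
      ∀ n γ, 0 < n → γ ∈ D n → n * θ ≤ ∑ i, u i * γ i := by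
  classical
  by_cases hne : ∃ n γ, 0 < n ∧ γ ∈ D n
  swap
  · refine ⟨fun _ => 1 / d, fun _ => by positivity, ?_, fun n γ h1 h2 => absurd ⟨n, γ, h1, h2⟩ hne⟩
    have : (d : ℝ) ≠ 0 := by positivity
    simp [this]
  have hmul : ∀ (k n : ℕ) γ, 0 < n → γ ∈ D n → ((k + 1 : ℕ) : ℝ) • γ ∈ D ((k + 1) * n) := by
    intro k n γ hn hγ
    induction k with
    | zero => simpa using hγ
    | succ k ih =>
      have := hadd _ _ _ _ (by positivity) hn ih hγ
      rw [show (k + 1) * n + n = (k + 1 + 1) * n by ring] at this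
      convert this using 1
      push_cast
      module
  let P : Set (Fin d → ℝ) := {z | ∃ n γ, 0 < n ∧ γ ∈ D n ∧ ∀ i, γ i < n * z i}
  have hopen : IsOpen P := by
    have : P = ⋃ n, ⋃ γ, ⋃ (_ : 0 < n ∧ γ ∈ D n), ⋂ i, {z : Fin d → ℝ | γ i < n * z i} := by
      ext z; simp [P]
    rw [this]
    refine isOpen_iUnion fun n => isOpen_iUnion fun γ => isOpen_iUnion fun _ =>
      isOpen_iInter_of_finite fun i => isOpen_lt continuous_const (by fun_prop)
  have hconv : Convex ℝ P := by
    rintro z1 ⟨n1, γ1, hn1, hγ1, h1⟩ z2 ⟨n2, γ2, hn2, hγ2, h2⟩ a b ha hb hab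
    have hn1' : (0 : ℝ) < n1 := by exact_mod_cast hn1
    have hn2' : (0 : ℝ) < n2 := by exact_mod_cast hn2
    -- the open set of good weights
    let G : Set ℝ := {τ | ∀ i, τ * (γ1 i / n1) + (1 - τ) * (γ2 i / n2) < a * z1 i + b * z2 i}
    have hG : IsOpen G := by
      have : G = ⋂ i, {τ | τ * (γ1 i / n1) + (1 - τ) * (γ2 i / n2) < a * z1 i + b * z2 i} := by
        ext; simp [G]
      rw [this]
      exact isOpen_iInter_of_finite fun i => isOpen_lt (by fun_prop) continuous_const
    have haG : a ∈ G := by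
      intro i
      have e1 : γ1 i / n1 < z1 i := by rw [div_lt_iff₀ hn1']; linarith [h1 i]
      have e2 : γ2 i / n2 < z2 i := by rw [div_lt_iff₀ hn2']; linarith [h2 i]
      rw [show 1 - a = b by linarith]
      rcases ha.eq_or_lt with h | h
      · have : b = 1 := by linarith
        rw [← h, this]; simpa using e2
      · nlinarith [mul_lt_mul_of_pos_left e1 h, mul_le_mul_of_nonneg_left e2.le hb]
    obtain ⟨ε, hε, hεG⟩ := Metric.isOpen_iff.mp hG a haG
    obtain ⟨τ, hτ1, hτ2⟩ := exists_rat_btwn (show max (a - ε) 0 < min (a + ε) 1 from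
      max_lt (lt_min (by linarith) (by linarith)) (lt_min (by linarith) one_pos))
    have hτ0 : (0 : ℝ) < τ := lt_of_le_of_lt (le_max_right _ _) hτ1
    have hτ1' : (τ : ℝ) < 1 := lt_of_lt_of_le hτ2 (min_le_right _ _)
    have hτG : (τ : ℝ) ∈ G := by
      apply hεG
      rw [Metric.mem_ball, Real.dist_eq, abs_lt]
      have := le_max_left (a - ε) 0
      have := min_le_left (a + ε) 1
      constructor <;> linarith
    have hτq0 : 0 < τ := by exact_mod_cast hτ0
    have hτq1 : τ < 1 := by exact_mod_cast hτ1'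
    obtain ⟨s, hs⟩ : ∃ s : ℕ, τ.num = (s + 1 : ℕ) :=
      ⟨τ.num.toNat - 1, by have := Rat.num_pos.mpr hτq0; omega⟩
    obtain ⟨t, ht⟩ : ∃ t : ℕ, τ.den = (s + 1) + (t + 1) := by
      have := Rat.num_lt_denom_iff.mpr hτq1
      exact ⟨τ.den - (s + 1) - 1, by omega⟩
    have hτe : (τ : ℝ) = (s + 1) / ((s + 1) + (t + 1)) := by
      rw [Rat.cast_def, hs, ht]; push_cast; ring
    obtain ⟨k1, hk1⟩ : ∃ k, (s + 1) * n2 = k + 1 := ⟨(s + 1) * n2 - 1, by
      have : 0 < (s + 1) * n2 := by positivity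
      omega⟩
    obtain ⟨k2, hk2⟩ : ∃ k, (t + 1) * n1 = k + 1 := ⟨(t + 1) * n1 - 1, by
      have : 0 < (t + 1) * n1 := by positivity
      omega⟩
    refine ⟨_, _, by positivity, hadd _ _ _ _ (by positivity) (by positivity)
      (hmul k1 n1 γ1 hn1 hγ1) (hmul k2 n2 γ2 hn2 hγ2), fun i => ?_⟩
    have h3 := hτG i
    rw [← hk1, ← hk2]
    simp only [Pi.add_apply, Pi.smul_apply, smul_eq_mul]
    push_cast
    have hN : (0 : ℝ) < ((s + 1) + (t + 1)) * n1 * n2 := by positivity
    have h4 := mul_lt_mul_of_pos_left h3 hN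
    rw [hτe] at h4
    have e3 : ((s + 1 : ℝ) + (t + 1)) * n1 * n2 * ((s + 1) / ((s + 1) + (t + 1)) * (γ1 i / n1) +
        (1 - (s + 1) / ((s + 1) + (t + 1))) * (γ2 i / n2)) =
        (s + 1) * n2 * γ1 i + (t + 1) * n1 * γ2 i := by field_simp; ring
    rw [e3] at h4
    refine h4.trans_le (le_of_eq ?_)
    ring
  have hx : (fun _ => θ : Fin d → ℝ) ∉ P := by
    rintro ⟨n, γ, hn, hγ, h⟩
    obtain ⟨i, hi⟩ := hbox n γ hn hγ
    linarith [h i]
  obtain ⟨f, hf⟩ := geometric_hahn_banach_open_point hconv hopen hx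
  let v : Fin d → ℝ := fun i => -f (Pi.single i 1)
  have hfv : ∀ z : Fin d → ℝ, f z = -∑ i, v i * z i := by
    intro z
    conv_lhs => rw [pi_eq_sum_univ' z, map_sum]
    rw [← sum_neg_distrib]
    refine sum_congr rfl fun i _ => ?_
    rw [map_smul, smul_eq_mul]
    simp only [v]
    ring_nf
  have hP : ∀ n γ, 0 < n → γ ∈ D n → ∀ z : Fin d → ℝ, (∀ i, 0 < z i) →
      (∑ i, v i) * θ < ∑ i, v i * (γ i / n + z i) := by
    intro n γ hn hγ z hz
    have hn' : (0 : ℝ) < n := by exact_mod_cast hn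
    have := hf (fun i => γ i / n + z i) ⟨n, γ, hn, hγ, fun i => by
      rw [mul_add, mul_div_cancel₀ _ hn'.ne']; nlinarith [hz i]⟩
    rw [hfv, hfv, ← sum_mul] at this
    linarith
  obtain ⟨n0, γ0, hn0, hγ0⟩ := hne
  have hv0 : ∀ i, 0 ≤ v i := by
    intro i
    by_contra hc
    push Not at hc
    set B := ∑ j, v j * (γ0 j / n0 + 1) - (∑ i, v i) * θ with hB
    have h1 := hP n0 γ0 hn0 hγ0 (fun _ => 1) (fun _ => one_pos)
    have hB0 : 0 < B := by linarith
    have h2 := hP n0 γ0 hn0 hγ0 (fun j => 1 + if j = i then B / (-v i) else 0) (fun j => by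
      have : 0 < B / (-v i) := div_pos hB0 (by linarith)
      split_ifs <;> linarith)
    have e : ∑ j, v j * (γ0 j / n0 + (1 + if j = i then B / (-v i) else 0)) =
        ∑ j, v j * (γ0 j / n0 + 1) + v i * (B / (-v i)) := by
      have : ∀ j, v j * (γ0 j / n0 + (1 + if j = i then B / (-v i) else 0)) =
          v j * (γ0 j / n0 + 1) + if j = i then v i * (B / (-v i)) else 0 := by
        intro j
        split_ifs with h
        · rw [h]; ring
        · ring
      simp only [this, sum_add_distrib, sum_ite_eq', mem_univ, if_true]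
    rw [e] at h2
    have e2 : v i * (B / (-v i)) = -B := by
      have : v i ≠ 0 := hc.ne
      field_simp
    linarith
  have hV0 : 0 ≤ ∑ i, v i := sum_nonneg fun i _ => hv0 i
  have hV : 0 < ∑ i, v i := by
    rcases hV0.eq_or_lt with h | h
    · exfalso
      have hz : ∀ i, v i = 0 := fun i =>
        (sum_eq_zero_iff_of_nonneg (fun i _ => hv0 i)).mp h.symm i (mem_univ i)
      have h1 := hP n0 γ0 hn0 hγ0 (fun _ => 1) (fun _ => one_pos)
      simp [hz] at h1
    · exact h
  refine ⟨fun i => v i / ∑ i, v i, fun i => div_nonneg (hv0 i) hV0, ?_, ?_⟩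
  · rw [← sum_div, div_self hV.ne']
  · intro n γ hn hγ
    have hn' : (0 : ℝ) < n := by exact_mod_cast hn
    have h1 : (∑ i, v i) * θ ≤ ∑ i, v i * (γ i / n) := by
      refine le_of_forall_pos_le_add fun ε hε => ?_
      have h2 := hP n γ hn hγ (fun _ => ε / ∑ i, v i) (fun _ => by positivity)
      simp only [mul_add, sum_add_distrib, ← sum_mul] at h2
      rw [mul_div_cancel₀ _ hV.ne'] at h2
      exact h2.le
    have e : ∑ i, v i / (∑ i, v i) * γ i = n / (∑ i, v i) * ∑ i, v i * (γ i / n) := by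
      rw [mul_sum]
      refine sum_congr rfl fun i _ => ?_
      field_simp
    rw [e]
    calc n * θ = n / (∑ i, v i) * ((∑ i, v i) * θ) := by field_simp
      _ ≤ _ := mul_le_mul_of_nonneg_left h1 (by positivity)

end Pool.Agent.H954Z.FT
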