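import Pool.Agent.H954Z.FT.St
import Pool.Agent.H954Z.FT.Lattice

/-!
# The separable case
-/

set_option autoImplicit false

namespace Pool.Agent.H954Z.FT

open Finset Filter Topology IsLocalRing
open scoped NNReal

lemma length_k_eq (k : Type) [Field k] (d : ℕ) (N : Type) [AddCommGroup N] [Module (PS d k) N]
    [Module k N] [IsScalarTower k (PS d k) N] : Module.length k N = Module.length (PS d k) N := by
  have : IsLocalHom (algebraMap k (PS d k)) := ⟨fun a ha => by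
    rcases eq_or_ne a 0 with rfl | h
    · simp at ha
    · exact h.isUnit⟩
  rw [IsLocalRing.length_restrictScalars k (PS d k) N]
  have hs : Function.Surjective (algebraMap (ResidueField k) (ResidueField (PS d k))) := by
    intro x
    obtain ⟨f, rfl⟩ := residue_surjective x
    refine ⟨residue k (MvPowerSeries.constantCoeff f), ?_⟩
    rw [ResidueField.algebraMap_residue]
    refine Ideal.Quotient.eq.mpr ?_
    rw [mem_maximalIdeal, mem_nonunits_iff, MvPowerSeries.isUnit_iff_constantCoeff]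
    simp [MvPowerSeries.algebraMap_apply]
  rw [Module.length_eq_of_surjective (M := ResidueField (PS d k)) hs,
    Module.length_eq_one (R := ResidueField (PS d k)) (M := ResidueField (PS d k)), mul_one]

lemma amgm (d : ℕ) (hd : 0 < d) (v : Fin d → ℝ) (hv : ∀ i, 0 ≤ v i) :
    ∏ i, v i ≤ ((∑ i, v i) / d) ^ d := by
  have hd' : (d : ℝ) ≠ 0 := by positivity
  have h := Real.geom_mean_le_arith_mean_weighted univ (fun _ : Fin d => (d : ℝ)⁻¹) v
    (fun _ _ => by positivity) (by simp [hd']) (fun i _ => hv i)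
  rw [Real.finsetProd_rpow _ _ (fun i _ => hv i), ← mul_sum] at h
  have h0 : 0 ≤ ∏ i, v i := prod_nonneg fun i _ => hv i
  calc ∏ i, v i = ((∏ i, v i) ^ (d : ℝ)⁻¹) ^ d := (Real.rpow_inv_natCast_pow h0 hd.ne').symm
    _ ≤ ((d : ℝ)⁻¹ * ∑ i, v i) ^ d := pow_le_pow_left₀ (Real.rpow_nonneg h0 _) h d
    _ = _ := by rw [inv_mul_eq_div]

lemma box_coeff {k : Type} [Field k] {d q : ℕ} {f : PS d k} (hf : f ∈ box d k q)
    {α : Fin d →₀ ℕ} (hα : MvPowerSeries.coeff α f ≠ 0) : ∃ i, q ≤ α i := by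
  by_contra hc
  push Not at hc
  apply hα
  obtain ⟨c, rfl⟩ := Ideal.mem_span_range_iff_exists_fun.mp hf
  rw [map_sum]
  exact sum_eq_zero fun i _ => MvPowerSeries.X_pow_dvd_iff.mp (dvd_mul_left _ _) α (hc i)

section val

variable {k : Type} [Field k] {d : ℕ} {Ω : Type} [Field Ω] {e : PS d k →+* Ω}
  {ω : Fin d → ℝ} {W : Valuation Ω ℝ≥0} {w : Ω → Fin d → ℚ}

lemma ValData.w_of_W_mul (hv : ValData e ω W w) {x y z : Ω} (hy : y ≠ 0) (hz : z ≠ 0)
    (h : W x = W y * W z) : w x = w y + w z := by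
  have hx : x ≠ 0 := by
    rintro rfl
    rw [map_zero, ← map_mul] at h
    exact mul_ne_zero hy hz ((Valuation.zero_iff W).mp h.symm)
  apply hv.inj
  have h1 : (W x : ℝ) = W y * W z := by rw [h, NNReal.coe_mul]
  rw [hv.W_eq x hx, hv.W_eq y hy, hv.W_eq z hz, ← Real.exp_add, Real.exp_eq_exp] at h1
  simp only [Pi.add_apply, Rat.cast_add, mul_add, sum_add_distrib]
  linarith

lemma ValData.w_mul (hv : ValData e ω W w) {y z : Ω} (hy : y ≠ 0) (hz : z ≠ 0) :
    w (y * z) = w y + w z := hv.w_of_W_mul hy hz (map_mul _ _ _)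

lemma ValData.w_one (hv : ValData e ω W w) : w 1 = 0 := by
  have := hv.w_mul one_ne_zero one_ne_zero
  rw [mul_one] at this
  simpa using this

lemma ValData.w_pow (hv : ValData e ω W w) {y : Ω} (hy : y ≠ 0) (n : ℕ) :
    w (y ^ n) = n • w y := by
  induction n with
  | zero => simp [hv.w_one]
  | succ n ih => rw [pow_succ, hv.w_mul (pow_ne_zero _ hy) hy, ih, succ_nsmul]

lemma ValData.e_ne (hv : ValData e ω W w) {f : PS d k} (hf : f ≠ 0) : e f ≠ 0 := by
  obtain ⟨α, -, -, h⟩ := hv.lead f hf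
  intro h0
  rw [h0, map_zero] at h
  exact not_lt_zero h

end val

lemma count_simp (d : ℕ) (hd : 0 < d) (u : Fin d → ℝ) (hu : ∀ i, 0 ≤ u i) (hu1 : ∑ i, u i = 1)
    (c C ε : ℝ) (hc : 0 < c) (hε : 0 < ε) :
    ∀ᶠ n : ℕ in atTop, 0 < n ∧ ((d / c) ^ d - ε) * (n : ℝ) ^ d ≤
      d.factorial * (simp d (fun i => u i + 1 / n) (n * (1 / c) - C)).ncard := by
  have h0 : Tendsto (fun n : ℕ => (1 : ℝ) / n) atTop (𝓝 0) := tendsto_one_div_atTop_nhds_zero_nat
  have h1 : Tendsto (fun n : ℕ => 1 / c - C * (1 / n : ℝ)) atTop (𝓝 (1 / c - C * 0)) :=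
    (h0.const_mul C).const_sub _
  have h2 : Tendsto (fun n : ℕ => ((1 / c - C * (1 / n : ℝ)) / ((1 + d * (1 / n : ℝ)) / d)) ^ d)
      atTop (𝓝 (((1 / c - C * 0) / ((1 + d * 0) / d)) ^ d)) := by
    refine (h1.div (((h0.const_mul (d : ℝ)).const_add 1).div_const _) ?_).pow d
    positivity
  have e2 : ((1 / c - C * 0) / ((1 + d * 0) / d)) ^ d = (d / c : ℝ) ^ d := by
    congr 1
    field_simp
    ring
  rw [e2] at h2
  rw [mul_zero, sub_zero] at h1
  filter_upwards [h1.eventually (lt_mem_nhds (show (0 : ℝ) < 1 / c by positivity)),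
    h2.eventually (lt_mem_nhds (show (d / c : ℝ) ^ d - ε < (d / c) ^ d by linarith)),
    eventually_gt_atTop 0] with n hn1 hn2 hn0
  refine ⟨hn0, ?_⟩
  have hn' : (0 : ℝ) < n := by exact_mod_cast hn0
  have hd' : (0 : ℝ) < d := by exact_mod_cast hd
  have hpos : ∀ i, 0 < u i + 1 / (n : ℝ) := fun i => by have := hu i; positivity
  have ey : n * (1 / c) - C = (1 / c - C * (1 / n : ℝ)) * n := by field_simp
  have h3 := simp_lower d _ hpos (n * (1 / c) - C) (by rw [ey]; positivity)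
  have h4 := amgm d hd _ fun i => (hpos i).le
  rw [sum_add_distrib, hu1, sum_const, card_univ, Fintype.card_fin, nsmul_eq_mul] at h4
  set P := ((1 + d * (1 / n : ℝ)) / d) with hP
  have hP0 : 0 < P ^ d := by positivity
  set Z : ℝ := ((simp d (fun i => u i + 1 / n) (n * (1 / c) - C)).ncard : ℝ) with hZ
  have hZ0 : 0 ≤ Z := Nat.cast_nonneg _
  have h5 : (n * (1 / c) - C) ^ d ≤ P ^ d * (d.factorial * Z) := by
    refine h3.trans ?_
    calc (d.factorial * ∏ i, (u i + 1 / (n : ℝ))) * Z ≤ (d.factorial * P ^ d) * Z := by gcongr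
      _ = _ := by ring
  rw [div_pow _ P, lt_div_iff₀ hP0] at hn2
  rw [ey, mul_pow] at h5
  refine le_of_mul_le_mul_left ?_ hP0
  refine le_trans ?_ h5
  have := mul_le_mul_of_nonneg_right hn2.le (pow_nonneg hn'.le d)
  linarith

section core

variable {k : Type} [Field k] {d : ℕ} {K L Ω : Type} [Field K] [Field L] [Field Ω]
  [Algebra (PS d k) K] [IsFractionRing (PS d k) K] [Algebra K L] [Algebra (PS d k) L]
  [IsScalarTower (PS d k) K L] [Algebra K Ω]
  {ω : Fin d → ℝ} {W : Valuation Ω ℝ≥0} {w : Ω → Fin d → ℚ}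

/-- the orthogonality property -/
def IsOrth {K L Ω : Type} [Field K] [Field L] [Field Ω] [Algebra K L] [Algebra K Ω]
    (W : Valuation Ω ℝ≥0) {r : ℕ} (g : Fin r → L) (j : Fin r → (L →ₐ[K] Ω)) : Prop :=
  (∀ s, g s ≠ 0) ∧ ∀ a : Fin r → K, a ≠ 0 → ∃ s, a s ≠ 0 ∧
    W (j s (∑ t, a t • g t)) = W (algebraMap K Ω (a s)) * W (j s (g s)) ∧
    ∀ σ : L →ₐ[K] Ω, W (σ (∑ t, a t • g t)) ≤ W (j s (∑ t, a t • g t))

lemma IsOrth.li {r : ℕ} {g : Fin r → L} {j : Fin r → (L →ₐ[K] Ω)} (h : IsOrth W g j) :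
    LinearIndependent K g := by
  rw [Fintype.linearIndependent_iff]
  intro a ha
  by_contra hc
  obtain ⟨s, h1, h2, -⟩ := h.2 a fun h0 => hc fun i => congrFun h0 i
  rw [ha, map_zero, map_zero, ← map_mul] at h2
  exact mul_ne_zero ((map_ne_zero _).mpr h1) ((map_ne_zero _).mpr (h.1 s))
    ((Valuation.zero_iff W).mp h2.symm)

/-- leading exponent of a combination with power series coefficients -/
lemma IsOrth.lead {r : ℕ} {g : Fin r → L} {j : Fin r → (L →ₐ[K] Ω)} (h : IsOrth W g j)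
    (hv : ValData ((algebraMap K Ω).comp (algebraMap (PS d k) K)) ω W w)
    (a : Fin r → PS d k) (ha : a ≠ 0) :
    ∃ s, a s ≠ 0 ∧ w (j s (∑ t, a t • g t)) =
        w (algebraMap K Ω (algebraMap (PS d k) K (a s))) + w (j s (g s)) ∧
      ∀ σ : L →ₐ[K] Ω, W (σ (∑ t, a t • g t)) ≤ W (j s (∑ t, a t • g t)) := by
  obtain ⟨s, h1, h2, h3⟩ := h.2 (fun t => algebraMap (PS d k) K (a t)) fun h0 => ha (by
    funext t
    exact (IsFractionRing.injective (PS d k) K) (by simpa using congrFun h0 t))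
  simp only [algebraMap_smul] at h2 h3
  refine ⟨s, fun h0 => h1 (by simp [h0]), ?_, h3⟩
  exact hv.w_of_W_mul ((map_ne_zero _).mpr h1) ((map_ne_zero _).mpr (h.1 s)) h2

lemma exists_denom [FiniteDimensional K L] {g : Fin (Module.finrank K L) → L}
    (hg : LinearIndependent K g) (M : Submodule (PS d k) L) (hM : M.FG) :
    ∃ c : PS d k, c ≠ 0 ∧ ∀ m ∈ M, c • m ∈ Submodule.span (PS d k) (Set.range g) := by
  have hspan : Submodule.span K (Set.range g) = ⊤ :=
    hg.span_eq_top_of_card_eq_finrank' (by simp)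
  refine Submodule.fg_induction
    (motive := fun M _ => ∃ c : PS d k, c ≠ 0 ∧ ∀ m ∈ M, c • m ∈ Submodule.span (PS d k) (Set.range g))
    ?_ ?_ M hM
  · intro y
    obtain ⟨a, ha⟩ := (Submodule.mem_span_range_iff_exists_fun K).mp
      (show y ∈ Submodule.span K (Set.range g) by rw [hspan]; trivial)
    obtain ⟨c, hc⟩ := IsLocalization.exist_integer_multiples_of_finite
      (nonZeroDivisors (PS d k)) a
    refine ⟨c, nonZeroDivisors.coe_ne_zero c, fun m hm => ?_⟩
    obtain ⟨b, rfl⟩ := Submodule.mem_span_singleton.mp hm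
    rw [smul_comm]
    refine Submodule.smul_mem _ _ ?_
    rw [← ha, smul_sum]
    refine Submodule.sum_mem _ fun t _ => ?_
    obtain ⟨z, hz⟩ := hc t
    rw [← smul_assoc, ← hz, algebraMap_smul]
    exact Submodule.smul_mem _ _ (Submodule.subset_span ⟨t, rfl⟩)
  · rintro M1 M2 - - ⟨c1, h1, h1'⟩ ⟨c2, h2, h2'⟩
    refine ⟨c1 * c2, mul_ne_zero h1 h2, fun m hm => ?_⟩
    obtain ⟨m1, hm1, m2, hm2, rfl⟩ := Submodule.mem_sup.mp hm
    rw [smul_add]
    refine Submodule.add_mem _ ?_ ?_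
    · rw [mul_comm, mul_smul]; exact Submodule.smul_mem _ _ (h1' _ hm1)
    · rw [mul_smul]; exact Submodule.smul_mem _ _ (h2' _ hm2)

/-- elements of `(X^q) M` have one large exponent -/
lemma box_avoid [FiniteDimensional K L] {g : Fin (Module.finrank K L) → L}
    {j : Fin (Module.finrank K L) → (L →ₐ[K] Ω)} (h : IsOrth W g j)
    (hv : ValData ((algebraMap K Ω).comp (algebraMap (PS d k) K)) ω W w)
    (M : Submodule (PS d k) L) (hM : M.FG) :
    ∃ C : ℝ, ∀ (q : ℕ) (y : L), y ≠ 0 → y ∈ box d k q • M → ∀ σ : L →ₐ[K] Ω,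
      (∀ τ : L →ₐ[K] Ω, W (τ y) ≤ W (σ y)) → ∃ i, (q : ℝ) - C ≤ w (σ y) i := by
  obtain ⟨c, hc0, hc⟩ := exists_denom h.li M hM
  set ec := algebraMap K Ω (algebraMap (PS d k) K c) with hec
  have hec0 : ec ≠ 0 := hv.e_ne hc0
  refine ⟨∑ s, ∑ i, |((w ec i - w (j s (g s)) i : ℚ) : ℝ)|, fun q y hy0 hy σ hσ => ?_⟩
  have h1 : c • y ∈ box d k q • Submodule.span (PS d k) (Set.range g) := by
    refine Submodule.smul_induction_on hy (fun a ha m hm => ?_) fun x z hx hz => ?_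
    · rw [smul_comm]; exact Submodule.smul_mem_smul ha (hc m hm)
    · rw [smul_add]; exact Submodule.add_mem _ hx hz
  obtain ⟨a, ha, hsum⟩ := (Submodule.mem_ideal_smul_span_iff_exists_sum _ _ _).mp h1
  rw [Finsupp.sum_fintype _ _ (by simp)] at hsum
  have hσc : ∀ τ : L →ₐ[K] Ω, τ (c • y) = ec * τ y := fun τ => by
    rw [← algebraMap_smul K c y, map_smul, Algebra.smul_def]
  have hσy : σ y ≠ 0 := (map_ne_zero _).mpr hy0
  have ha0 : (a : Fin _ → PS d k) ≠ 0 := by
    intro h0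
    have : c • y = 0 := by rw [← hsum]; simp [h0]
    have h2 := hσc σ
    rw [this, map_zero] at h2
    exact mul_ne_zero hec0 hσy h2.symm
  obtain ⟨s, hs0, hs1, hs2⟩ := h.lead hv a ha0
  rw [hsum] at hs1 hs2
  obtain ⟨α, hα1, hα2, -⟩ := hv.lead _ hs0
  obtain ⟨i, hi⟩ := box_coeff (ha s) hα1
  refine ⟨i, ?_⟩
  have h3 : W (j s (c • y)) = W ec * W (σ y) := by
    refine le_antisymm ?_ ?_
    · rw [hσc, map_mul]; exact mul_le_mul_right (hσ _) _
    · rw [← map_mul, ← hσc]; exact hs2 σ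
  have h4 := congrFun ((hv.w_of_W_mul hec0 hσy h3).symm.trans hs1) i
  have h5 := hα2 i
  simp only [RingHom.comp_apply] at h5
  simp only [Pi.add_apply] at h4
  rw [h5] at h4
  have h6 : ((w ec i - w (j s (g s)) i : ℚ) : ℝ) ≤
      ∑ s, ∑ i, |((w ec i - w (j s (g s)) i : ℚ) : ℝ)| :=
    (le_abs_self _).trans ((single_le_sum (f := fun i => |((w ec i - w (j s (g s)) i : ℚ) : ℝ)|)
      (fun _ _ => abs_nonneg _) (mem_univ i)).trans
      (single_le_sum (f := fun s => ∑ i, |((w ec i - w (j s (g s)) i : ℚ) : ℝ)|)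
        (fun _ _ => sum_nonneg fun _ _ => abs_nonneg _) (mem_univ s)))
  have h7 : (w (σ y) i : ℝ) = α i - ((w ec i - w (j s (g s)) i : ℚ) : ℝ) := by
    have : w (σ y) i = α i - (w ec i - w (j s (g s)) i) := by linarith
    rw [this]; push_cast; ring
  have h8 : (q : ℝ) ≤ α i := by exact_mod_cast hi
  linarith

variable {S : Type} [CommRing S] [Algebra (PS d k) S]

/-- exponent vectors of elements of `𝔠 ^ n` whose largest conjugate is `σ` -/
def Dset (W : Valuation Ω ℝ≥0) (w : Ω → Fin d → ℚ) (ι : S →ₐ[PS d k] L) (𝔠 : Ideal S)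
    (σ : L →ₐ[K] Ω) (n : ℕ) : Set (Fin d → ℝ) :=
  {γ | ∃ h ∈ 𝔠 ^ n, ι h ≠ 0 ∧ (∀ τ : L →ₐ[K] Ω, W (τ (ι h)) ≤ W (σ (ι h))) ∧
    γ = fun i => (w (σ (ι h)) i : ℝ)}

lemma Dset_halfspace [FiniteDimensional K L] (hd : 0 < d) {g : Fin (Module.finrank K L) → L}
    {j : Fin (Module.finrank K L) → (L →ₐ[K] Ω)} (h : IsOrth W g j)
    (hv : ValData ((algebraMap K Ω).comp (algebraMap (PS d k) K)) ω W w)
    (ι : S →ₐ[PS d k] L) (𝔠 : Ideal S) (M : Submodule (PS d k) L) (hM : M.FG) (c : ℝ)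
    (hc : 0 < c)
    (H : ∀ Q : ℕ, ∃ q N : ℕ, Q ≤ q ∧ (N : ℝ) ≤ c * q + 1 ∧ ∀ g ∈ 𝔠 ^ N, ι g ∈ box d k q • M)
    (σ : L →ₐ[K] Ω) :
    ∃ u : Fin d → ℝ, (∀ i, 0 ≤ u i) ∧ ∑ i, u i = 1 ∧
      ∀ n γ, 0 < n → γ ∈ Dset W w ι 𝔠 σ n → n * (1 / c) ≤ ∑ i, u i * γ i := by
  refine exists_halfspace d hd _ _ ?_ ?_
  · rintro n m _ _ - - ⟨x, hx, hx0, hx1, rfl⟩ ⟨y, hy, hy0, hy1, rfl⟩
    refine ⟨x * y, by rw [pow_add]; exact Ideal.mul_mem_mul hx hy, ?_, fun τ => ?_, ?_⟩
    · rw [map_mul]; exact mul_ne_zero hx0 hy0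
    · simp only [map_mul]; exact mul_le_mul' (hx1 τ) (hy1 τ)
    · funext i
      rw [map_mul, map_mul, hv.w_mul ((map_ne_zero _).mpr hx0) ((map_ne_zero _).mpr hy0)]
      simp
  · rintro n _ hn ⟨x, hx, hx0, hx1, rfl⟩
    obtain ⟨C, hC⟩ := box_avoid h hv M hM
    by_contra hcon
    push Not at hcon
    have hn' : (0 : ℝ) < n := by exact_mod_cast hn
    obtain ⟨δ, hδ0, hδ1, hδ2⟩ : ∃ δ : ℝ, 0 ≤ δ ∧ δ < n * (1 / c) ∧
        ∀ i, (w (σ (ι x)) i : ℝ) ≤ δ := by
      obtain ⟨i0, -, hi0⟩ := exists_max_image univ (fun i => (w (σ (ι x)) i : ℝ))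
        ⟨⟨0, hd⟩, mem_univ _⟩
      exact ⟨max (w (σ (ι x)) i0) 0, le_max_right _ _, max_lt (hcon i0) (by positivity),
        fun i => (hi0 i (mem_univ i)).trans (le_max_left _ _)⟩
    have hlam : 0 < 1 - c * δ / n := by
      rw [sub_pos, div_lt_one hn']
      rw [mul_one_div, lt_div_iff₀ hc] at hδ1
      linarith
    obtain ⟨Q, hQ⟩ := exists_nat_gt (((1 / n + 1) * δ + C) / (1 - c * δ / n))
    obtain ⟨q, N, hq, hN, hH⟩ := H Q
    have hmem : x ^ (N / n + 1) ∈ 𝔠 ^ N := by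
      have h1 := Ideal.pow_mem_pow hx (N / n + 1)
      rw [← pow_mul] at h1
      refine Ideal.pow_le_pow_right ?_ h1
      exact (Nat.lt_mul_div_succ N hn).le
    obtain ⟨i, hi⟩ := hC q (ι (x ^ (N / n + 1))) (by rw [map_pow]; exact pow_ne_zero _ hx0)
      (hH _ hmem) σ (fun τ => by
        simp only [map_pow]; exact pow_le_pow_left' (hx1 τ) _)
    rw [map_pow, map_pow, hv.w_pow ((map_ne_zero _).mpr hx0)] at hi
    simp only [Pi.smul_apply, nsmul_eq_mul] at hi
    push_cast at hi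
    have h1 : ((N / n : ℕ) : ℝ) ≤ (c * q + 1) / n :=
      Nat.cast_div_le.trans (by gcongr)
    have h2 : (((N / n : ℕ) : ℝ) + 1) * (w (σ (ι x)) i : ℝ) ≤ ((c * q + 1) / n + 1) * δ :=
      calc _ ≤ (((N / n : ℕ) : ℝ) + 1) * δ := by gcongr; exact hδ2 i
        _ ≤ _ := by gcongr
    rw [div_lt_iff₀ hlam] at hQ
    have h3 : (Q : ℝ) * (1 - c * δ / n) ≤ q * (1 - c * δ / n) := by gcongr
    have e : ((c * q + 1) / n + 1) * δ = q * (c * δ / n) + (1 / n + 1) * δ := by
      field_simp; ring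
    linarith

lemma card_le_length {r : ℕ} {g : Fin r → L} {j : Fin r → (L →ₐ[K] Ω)} (h : IsOrth W g j)
    (hv : ValData ((algebraMap K Ω).comp (algebraMap (PS d k) K)) ω W w)
    (ι : S →ₐ[PS d k] L) (G : Fin r → S) (hG : ∀ s, ι (G s) = g s) (𝔠 : Ideal S) (n : ℕ)
    (Z : Fin r → Finset (Fin d → ℕ))
    (hZ : ∀ s, ∀ α ∈ Z s, (fun i => (α i : ℝ) + w (j s (g s)) i) ∉ Dset W w ι 𝔠 (j s) n) :
    ((∑ s, (Z s).card : ℕ) : ℕ∞) ≤ Module.length (PS d k) (S ⧸ 𝔠 ^ n) := by
  classical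
  let _ : Algebra k S := ((algebraMap (PS d k) S).comp (algebraMap k (PS d k))).toAlgebra
  have : IsScalarTower k (PS d k) S := IsScalarTower.of_algebraMap_eq fun _ => rfl
  rw [← length_k_eq k d, Module.length_eq_rank]
  let mono : (Fin d → ℕ) → PS d k := fun α =>
    MvPowerSeries.monomial (Finsupp.equivFunOnFinite.symm α) 1
  let v : ((s : Fin r) × Z s) → S ⧸ 𝔠 ^ n := fun x =>
    Ideal.Quotient.mkₐ k (𝔠 ^ n) (mono x.2 • G x.1)
  have hli : LinearIndependent k v := by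
    rw [Fintype.linearIndependent_iff]
    intro c hc
    let f : Fin r → PS d k := fun s => ∑ α : Z s, c ⟨s, α⟩ • mono α
    have hcoeff : ∀ s (β : Fin d →₀ ℕ), MvPowerSeries.coeff β (f s) =
        ∑ α : Z s, if (β : Fin d → ℕ) = α then c ⟨s, α⟩ else 0 := by
      intro s β
      simp only [f, map_sum, map_smul, mono, MvPowerSeries.coeff_monomial, smul_eq_mul, mul_ite,
        mul_one, mul_zero]
      refine sum_congr rfl fun α _ => if_congr ?_ rfl rfl
      rw [Equiv.eq_symm_apply]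
      rfl
    have hmem : ∑ s, f s • G s ∈ 𝔠 ^ n := by
      rw [← Ideal.Quotient.eq_zero_iff_mem, ← Ideal.Quotient.mkₐ_eq_mk k, ← hc,
        Fintype.sum_sigma, map_sum]
      refine sum_congr rfl fun s _ => ?_
      simp only [f, v, sum_smul, map_sum, smul_assoc, map_smul]
    have hf : f = 0 := by
      by_contra hf
      obtain ⟨s, hs0, hs1, hs2⟩ := h.lead hv f hf
      obtain ⟨α, hα1, hα2, -⟩ := hv.lead _ hs0
      have hι : ι (∑ s, f s • G s) = ∑ s, f s • g s := by simp only [map_sum, map_smul, hG]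
      rw [hcoeff] at hα1
      obtain ⟨β, -, hβ⟩ := exists_ne_zero_of_sum_ne_zero hα1
      have hαβ : (α : Fin d → ℕ) = β := by
        by_contra h0
        simp [h0] at hβ
      refine hZ s β β.2 ⟨_, hmem, ?_, by rw [hι]; exact hs2, ?_⟩
      · rw [hι]
        intro h0
        have hli := Fintype.linearIndependent_iff.mp h.li (fun t => algebraMap (PS d k) K (f t))
          (by simpa only [algebraMap_smul] using h0) s
        exact hs0 ((IsFractionRing.injective (PS d k) K) (by simpa using hli))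
      · funext i
        rw [hι, hs1, ← hαβ]
        have := hα2 i
        simp only [RingHom.comp_apply] at this
        simp [this]
    rintro ⟨s, α⟩
    have h1 := hcoeff s (Finsupp.equivFunOnFinite.symm α)
    rw [hf, sum_eq_single α] at h1
    · simpa using h1.symm
    · intro β _ hβ
      rw [if_neg]
      intro h0
      exact hβ (Subtype.ext (by simpa using h0.symm))
    · simp
  have h1 := hli.cardinal_le_rank
  rw [Cardinal.mk_fintype, Fintype.card_sigma] at h1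
  simp only [Fintype.card_coe] at h1
  have h2 := OrderHomClass.mono Cardinal.toENat h1
  simpa only [map_natCast] using h2

lemma IsOrth.scale {r : ℕ} {g : Fin r → L} {j : Fin r → (L →ₐ[K] Ω)} (h : IsOrth W g j)
    (b : Fin r → K) (hb : ∀ s, b s ≠ 0) : IsOrth W (fun s => b s • g s) j := by
  refine ⟨fun s => smul_ne_zero (hb s) (h.1 s), fun a ha => ?_⟩
  obtain ⟨s, h1, h2, h3⟩ := h.2 (fun t => a t * b t) fun h0 => ha (by
    funext t
    exact (mul_eq_zero.mp (congrFun h0 t)).resolve_right (hb t))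
  simp only [mul_smul] at h2 h3
  refine ⟨s, left_ne_zero_of_mul h1, ?_, h3⟩
  rw [h2, map_smul, Algebra.smul_def]
  simp only [map_mul, mul_assoc]

end core

theorem thm_core (hval : S_val) (horth : S_orth) : S_core := by
  intro k _ d hd K L _ _ _ _ _ _ _ _ _ S _ _ ι hι hspan 𝔠 M hM c hc H ε hε
  classical
  obtain ⟨ω, W, w, hv⟩ := hval k d K (AlgebraicClosure K)
  obtain ⟨g0, j, h0⟩ := horth k d K L (AlgebraicClosure K) ω W w hv
  choose b hb0 hb using fun s => hspan (g0 s)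
  choose G hG using fun s => (AlgHom.mem_range ι).mp (hb s)
  have h : IsOrth W (fun s => algebraMap (PS d k) K (b s) • g0 s) j :=
    IsOrth.scale h0 _ fun s h1 => hb0 s ((IsFractionRing.injective (PS d k) K) (by simpa using h1))
  set g := fun s => algebraMap (PS d k) K (b s) • g0 s with hg
  have hG' : ∀ s, ι (G s) = g s := fun s => by rw [hG, hg]; simp only [algebraMap_smul]
  choose u hu0 hu1 hu using fun s => Dset_halfspace hd h hv ι 𝔠 M hM c hc H (j s)
  let r := Module.finrank K L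
  have hε' : 0 < ε / (r + 1) := by positivity
  have hev := eventually_all.mpr fun s => count_simp d hd (u s) (hu0 s) (hu1 s) c
    (∑ i, u s i * w (j s (g s)) i) _ hc hε'
  filter_upwards [hev, eventually_gt_atTop 0] with n hn hn0
  have hn' : (0 : ℝ) < n := by exact_mod_cast hn0
  have hpos : ∀ s i, 0 < u s i + 1 / (n : ℝ) := fun s i => by have := hu0 s i; positivity
  let Z : Fin r → Finset (Fin d → ℕ) := fun s =>
    (simp_finite d _ (hpos s) (n * (1 / c) - ∑ i, u s i * w (j s (g s)) i)).toFinset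
  refine ⟨∑ s, (Z s).card, card_le_length h hv ι G hG' 𝔠 n Z fun s α hα hD => ?_, ?_⟩
  · have h1 := hu s n _ hn0 hD
    have h2 : ∑ i, (u s i + 1 / (n : ℝ)) * α i < n * (1 / c) - ∑ i, u s i * w (j s (g s)) i :=
      (Set.Finite.mem_toFinset (simp_finite d _ (hpos s) _)).mp hα
    have h3 : ∑ i, u s i * α i ≤ ∑ i, (u s i + 1 / (n : ℝ)) * α i :=
      sum_le_sum fun i _ => by
        have : (0 : ℝ) ≤ 1 / n := by positivity
        gcongr
        linarith
    simp only [mul_add, sum_add_distrib] at h1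
    linarith
  · have h1 : ∑ _s : Fin r, ((d / c) ^ d - ε / (r + 1)) * (n : ℝ) ^ d ≤
        ∑ s, (d.factorial : ℝ) * (Z s).card := sum_le_sum fun s _ => by
      have := (hn s).2
      rwa [Set.ncard_eq_toFinset_card _ (simp_finite d _ (hpos s) _)] at this
    rw [sum_const, card_univ, Fintype.card_fin, nsmul_eq_mul, ← mul_sum] at h1
    push_cast
    refine le_trans ?_ h1
    rw [← mul_assoc]
    refine mul_le_mul_of_nonneg_right ?_ (by positivity)
    have h2 : (r : ℝ) * (ε / (r + 1)) ≤ ε := by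
      rw [← mul_div_assoc, div_le_iff₀ (by positivity)]
      nlinarith
    nlinarith

end Pool.Agent.H954Z.FT
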