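import Mathlib

/-!
# Statements of the pieces of the multiplicity bound via F-thresholds (S00089)
-/

set_option autoImplicit false

namespace Pool.Agent.H954Z.FT

open Filter Topology IsLocalRing
open scoped NNReal

/-- power series ring in `d` variables -/
abbrev PS (d : ℕ) (k : Type) [Field k] : Type := MvPowerSeries (Fin d) k

/-- the ideal `(X_1^q, ..., X_d^q)` -/
noncomputable def box (d : ℕ) (k : Type) [Field k] (q : ℕ) : Ideal (PS d k) :=
  Ideal.span (Set.range fun i : Fin d => (MvPowerSeries.X i : PS d k) ^ q)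

/-- `len n ≥ (ρ - o(1)) n^d / d!` -/
def Lower (d : ℕ) (ρ : ℝ) (len : ℕ → ℕ∞) : Prop :=
  ∀ ε : ℝ, 0 < ε → ∀ᶠ n : ℕ in atTop, ∃ m : ℕ, (m : ℕ∞) ≤ len n ∧
    (ρ - ε) * (n : ℝ) ^ d ≤ (d.factorial : ℝ) * m

/-- `len n ≤ (ρ + o(1)) n^d / d!` -/
def Upper (d : ℕ) (ρ : ℝ) (len : ℕ → ℕ∞) : Prop :=
  ∀ ε : ℝ, 0 < ε → ∀ᶠ n : ℕ in atTop, ∃ m : ℕ, len n ≤ (m : ℕ∞) ∧
    (d.factorial : ℝ) * m ≤ (ρ + ε) * (n : ℝ) ^ d

/-- coefficient field of a complete local ring of characteristic `p` -/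
def S_coeff : Prop :=
  ∀ (T : Type) [CommRing T] [IsLocalRing T] [IsAdicComplete (maximalIdeal T) T]
    (p : ℕ) [Fact p.Prime] [CharP T p],
    ∃ φ : ResidueField T →+* T, ∀ a, residue T (φ a) = a

/-- a complete local ring with coefficient field is finite over the power series ring in
parameters -/
def S_fin : Prop :=
  ∀ (T : Type) [CommRing T] [IsLocalRing T] [IsAdicComplete (maximalIdeal T) T]
    (k : Type) [Field k] (φ : k →+* T) (d : ℕ) (x : Fin d → T),
    (maximalIdeal T).FG → Function.Surjective (fun a => residue T (φ a)) →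
    (∀ i, x i ∈ maximalIdeal T) → (∃ s : ℕ, maximalIdeal T ^ s ≤ Ideal.span (Set.range x)) →
    ∃ ψ : PS d k →+* T, (∀ i, ψ (MvPowerSeries.X i) = x i) ∧
      (∀ a, ψ (MvPowerSeries.C a) = φ a) ∧ ψ.Finite

/-- the multiplicity of the maximal ideal of `A` on `N` is at most the rank -/
def S_upper : Prop :=
  ∀ (k : Type) [Field k] (d : ℕ), 0 < d →
    ∀ (N : Type) [AddCommGroup N] [Module (PS d k) N] [Module.Finite (PS d k) N],
    Upper d (Module.finrank (PS d k) N) fun n =>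
      Module.length (PS d k) (N ⧸ (box d k 1 ^ n • ⊤ : Submodule (PS d k) N))

/-- the lower bound for the multiplicity of `𝔟` -/
def S_lower : Prop :=
  ∀ (k : Type) [Field k] (p : ℕ) [Fact p.Prime] [CharP k p] (d : ℕ), 0 < d →
    ∀ (T : Type) [CommRing T] [Algebra (PS d k) T] [Module.Finite (PS d k) T]
      (𝔟 : Ideal T) (c : ℝ), 0 < c →
      (∀ Q : ℕ, ∃ q N : ℕ, Q ≤ q ∧ (N : ℝ) ≤ c * q ∧
        𝔟 ^ N ≤ (box d k q).map (algebraMap (PS d k) T)) →
      Lower d (Module.finrank (PS d k) T * (d / c) ^ d) fun n =>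
        Module.length (PS d k) (T ⧸ 𝔟 ^ n)

/-- the lower bound when `T` is a domain containing `A` -/
def S_lowerDom : Prop :=
  ∀ (k : Type) [Field k] (p : ℕ) [Fact p.Prime] [CharP k p] (d : ℕ), 0 < d →
    ∀ (T : Type) [CommRing T] [IsDomain T] [Algebra (PS d k) T] [Module.Finite (PS d k) T],
      Function.Injective (algebraMap (PS d k) T) → ∀ (𝔟 : Ideal T) (c : ℝ), 0 < c →
      (∀ Q : ℕ, ∃ q N : ℕ, Q ≤ q ∧ (N : ℝ) ≤ c * q ∧
        𝔟 ^ N ≤ (box d k q).map (algebraMap (PS d k) T)) →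
      Lower d (Module.finrank (PS d k) T * (d / c) ^ d) fun n =>
        Module.length (PS d k) (T ⧸ 𝔟 ^ n)

/-- from the prime quotients to all finite modules -/
def S_ind : Prop :=
  ∀ (k : Type) [Field k] (d : ℕ) (B : Type) [CommRing B] [Algebra (PS d k) B]
    [Module.Finite (PS d k) B] (𝔠 : Ideal B) (κ : ℝ),
    (∀ P : Ideal B, P.IsPrime → P.comap (algebraMap (PS d k) B) = ⊥ →
      Lower d (Module.finrank (PS d k) (B ⧸ P) * κ) fun n =>
        Module.length (PS d k) ((B ⧸ P) ⧸ (𝔠.map (Ideal.Quotient.mk P)) ^ n)) →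
    ∀ (N : Type) [AddCommGroup N] [Module B N] [Module (PS d k) N] [IsScalarTower (PS d k) B N]
      [Module.Finite B N],
      Lower d (Module.finrank (PS d k) N * κ) fun n =>
        Module.length (PS d k) (N ⧸ (𝔠 ^ n • ⊤ : Submodule B N))

/-- the separable case -/
def S_core : Prop :=
  ∀ (k : Type) [Field k] (d : ℕ), 0 < d →
    ∀ (K L : Type) [Field K] [Field L] [Algebra (PS d k) K] [IsFractionRing (PS d k) K]
      [Algebra K L] [Algebra (PS d k) L] [IsScalarTower (PS d k) K L] [FiniteDimensional K L]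
      [Algebra.IsSeparable K L] (S : Type) [CommRing S] [Algebra (PS d k) S]
      (ι : S →ₐ[PS d k] L), Function.Injective ι →
      (∀ y : L, ∃ a : PS d k, a ≠ 0 ∧ a • y ∈ ι.range) →
      ∀ (𝔠 : Ideal S) (M : Submodule (PS d k) L), M.FG → ∀ c : ℝ, 0 < c →
      (∀ Q : ℕ, ∃ q N : ℕ, Q ≤ q ∧ (N : ℝ) ≤ c * q + 1 ∧ ∀ g ∈ 𝔠 ^ N, ι g ∈ box d k q • M) →
      Lower d (Module.finrank K L * (d / c) ^ d) fun n => Module.length (PS d k) (S ⧸ 𝔠 ^ n)

/-- A monomial valuation `W` with rationally independent weights `ω`, extended to a field `Ω`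
along `e`; `w y` is the exponent vector of `y`. -/
structure ValData {k : Type} [Field k] {d : ℕ} {Ω : Type} [Field Ω] (e : PS d k →+* Ω)
    (ω : Fin d → ℝ) (W : Valuation Ω ℝ≥0) (w : Ω → Fin d → ℚ) : Prop where
  pos : ∀ i, 0 < ω i
  inj : ∀ γ δ : Fin d → ℚ, ∑ i, ω i * γ i = ∑ i, ω i * δ i → γ = δ
  W_eq : ∀ y, y ≠ 0 → (W y : ℝ) = Real.exp (-∑ i, ω i * w y i)
  lead : ∀ f : PS d k, f ≠ 0 → ∃ α : Fin d →₀ ℕ, MvPowerSeries.coeff α f ≠ 0 ∧
    (∀ i, w (e f) i = α i) ∧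
    W (e (f - MvPowerSeries.monomial α (MvPowerSeries.coeff α f))) < W (e f)

/-- existence of the valuation -/
def S_val : Prop :=
  ∀ (k : Type) [Field k] (d : ℕ) (K Ω : Type) [Field K] [Field Ω] [Algebra (PS d k) K]
    [IsFractionRing (PS d k) K] [Algebra K Ω] [Algebra.IsAlgebraic K Ω],
    ∃ (ω : Fin d → ℝ) (W : Valuation Ω ℝ≥0) (w : Ω → Fin d → ℚ),
      ValData ((algebraMap K Ω).comp (algebraMap (PS d k) K)) ω W w

/-- the largest conjugate of an integral element has exponent vector in the orthant -/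
def S_orthant : Prop :=
  ∀ (k : Type) [Field k] (d : ℕ) (K L Ω : Type) [Field K] [Field L] [Field Ω]
    [Algebra (PS d k) K] [IsFractionRing (PS d k) K] [Algebra K L] [Algebra (PS d k) L]
    [IsScalarTower (PS d k) K L] [FiniteDimensional K L] [Algebra K Ω] [IsAlgClosed Ω]
    (ω : Fin d → ℝ) (W : Valuation Ω ℝ≥0) (w : Ω → Fin d → ℚ),
    ValData ((algebraMap K Ω).comp (algebraMap (PS d k) K)) ω W w →
    ∀ h : L, IsIntegral (PS d k) h → h ≠ 0 → ∀ σ : L →ₐ[K] Ω,
      (∀ τ : L →ₐ[K] Ω, W (τ h) ≤ W (σ h)) → ∀ i, 0 ≤ w (σ h) i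

/-- coordinates are bounded by the largest conjugate -/
def S_approx : Prop :=
  ∀ (K L Ω : Type) [Field K] [Field L] [Field Ω] [Algebra K L] [FiniteDimensional K L]
    [Algebra.IsSeparable K L] [Algebra K Ω] [IsAlgClosed Ω] (W : Valuation Ω ℝ≥0)
    (r : ℕ) (l : Module.Basis (Fin r) K L),
    ∃ C : ℝ≥0, 1 ≤ C ∧ ∀ (h : L) (s : Fin r), ∃ σ : L →ₐ[K] Ω,
      W (algebraMap K Ω (l.repr h s)) ≤ C * W (σ h)

/-- an orthogonal basis adapted to the conjugates -/
def S_orth : Prop :=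
  ∀ (k : Type) [Field k] (d : ℕ) (K L Ω : Type) [Field K] [Field L] [Field Ω]
    [Algebra (PS d k) K] [IsFractionRing (PS d k) K] [Algebra K L] [Algebra (PS d k) L]
    [IsScalarTower (PS d k) K L] [FiniteDimensional K L] [Algebra.IsSeparable K L]
    [Algebra K Ω] [IsAlgClosed Ω]
    (ω : Fin d → ℝ) (W : Valuation Ω ℝ≥0) (w : Ω → Fin d → ℚ),
    ValData ((algebraMap K Ω).comp (algebraMap (PS d k) K)) ω W w →
    ∃ (g : Fin (Module.finrank K L) → L) (j : Fin (Module.finrank K L) → (L →ₐ[K] Ω)),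
      (∀ s, g s ≠ 0) ∧ ∀ a : Fin (Module.finrank K L) → K, a ≠ 0 → ∃ s, a s ≠ 0 ∧
        W (j s (∑ t, a t • g t)) = W (algebraMap K Ω (a s)) * W (j s (g s)) ∧
        ∀ σ : L →ₐ[K] Ω, W (σ (∑ t, a t • g t)) ≤ W (j s (∑ t, a t • g t))

/-- the target statement -/
def S_main : Prop :=
    ∀ (R : Type) [CommRing R] [IsLocalRing R] [IsNoetherianRing R]
      (p : ℕ) [Fact p.Prime] [CharP R p] (d : ℕ),
      ringKrullDim R = ((d : ℕ∞) : WithBot ℕ∞) →
      ∀ (x : Fin d → R), (∀ i, x i ∈ IsLocalRing.maximalIdeal R) →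
        (Ideal.span (Set.range x)).radical = IsLocalRing.maximalIdeal R →
        ∀ (𝔞 : Ideal R), 𝔞.radical = IsLocalRing.maximalIdeal R →
          ∀ (c eJ ea : ℝ),
            Filter.Tendsto
              (fun e : ℕ =>
                ((sInf {N : ℕ | 𝔞 ^ N ≤ Ideal.span (Set.range (fun i => x i ^ p ^ e))} : ℕ) : ℝ)
                  / (p : ℝ) ^ e)
              Filter.atTop (nhds c) →
            Filter.Tendsto
              (fun n : ℕ =>
                (d.factorial : ℝ)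
                  * ((Module.length R (R ⧸ (Ideal.span (Set.range x)) ^ n)).toNat : ℝ)
                  / (n : ℝ) ^ d)
              Filter.atTop (nhds eJ) →
            Filter.Tendsto
              (fun n : ℕ =>
                (d.factorial : ℝ) * ((Module.length R (R ⧸ 𝔞 ^ n)).toNat : ℝ) / (n : ℝ) ^ d)
              Filter.atTop (nhds ea) →
            eJ ≤ (c / (d : ℝ)) ^ d * ea

end Pool.Agent.H954Z.FT
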